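import Pool.Agent.Lib_helper74.KY.F.Poly

/-!
# Candidates for the answers to a batch of questions, from a truth-table reduction (MP_675993_lc)
-/

set_option autoImplicit false
set_option linter.unusedSectionVars false
set_option linter.unusedVariables false

namespace Pool.Agent.CKP

open Pool.Agent.CK

section defs

variable {π : Type} (W : ℕ → ℕ → Bool) (phi : π → List (Bool × ℕ) → List Bool → Bool)
  (ℓ : ℕ → ℕ) (r d : ℕ) (Q : List Bool → List (List Bool))
  (V : List Bool → List Bool → Bool)

/-- the questions with the codes of their queries -/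
def XG (T : List (Bool × ℕ)) (N : π) (n : List Unit) (zs : List (List Bool)) :
    List (List Bool × List (List Unit × ℕ)) :=
  zs.map fun z => (z, (Q z).map fun q => evS W phi r d T N n q)

/-- the candidates for the answers to the questions `zs` -/
def gS (T : List (Bool × ℕ)) (N : π) (n : List Unit) (zs : List (List Bool)) :
    List (List Bool) :=
  (pivS (XG W phi r d Q T N n zs)).map (vecS ℓ V (XG W phi r d Q T N n zs))

/-- a query of a question contains a witness below `U` -/
def jackS (n : List Unit) (U : ℕ) (zs : List (List Bool)) : Bool :=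
  zs.any fun z => (Q z).any fun q => revB W r d n U q

end defs

variable {O : Lang} {π : Type} {W : ℕ → ℕ → Bool}
  {phi : π → List (Bool × ℕ) → List Bool → Bool} {ℓ : ℕ → ℕ} {r d : ℕ}
  {Q : List Bool → List (List Bool)} {V : List Bool → List Bool → Bool}

theorem gS_true (hcut : Cut W ℓ) {A : Lang} (hQV : ∀ z, A z = V z ((Q z).map (CL O W r d)))
    {T : List (Bool × ℕ)} {N : π} {n : List Unit} {U : ℕ} {zs : List (List Bool)}
    (hT : ∀ j < n.length, LeastSpec W j (ent T j))
    (hphi : ∀ q, typ q = true → valid W r d q = true → (wss q).length ≤ n.length →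
      phi N T (xx q) = UK O (xx q))
    (hex : ∃ v < U, W n.length v = true) (hj : jackS W r d Q n U zs = false) :
    zs.map A ∈ gS W phi ℓ r d Q V T N n zs := by
  obtain ⟨p, hp, hp2⟩ := exists_piv (W := W) hcut (XG W phi r d Q T N n zs)
  unfold gS
  refine List.mem_map.mpr ⟨p, hp, ?_⟩
  have h5 : vecS ℓ V (XG W phi r d Q T N n zs) p =
      (XG W phi r d Q T N n zs).map fun x => V x.1 (x.2.map (ansU (tmW W))) := by
    unfold vecS
    refine List.map_congr_left fun x hx => ?_
    rw [hp2 x hx]
  rw [h5]
  unfold XG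
  rw [List.map_map]
  refine List.map_congr_left fun z hz => ?_
  simp only [Function.comp_apply]
  rw [hQV, List.map_map]
  congr 1
  refine List.map_congr_left fun q hq => ?_
  simp only [Function.comp_apply]
  refine (evS_spec hT (hphi q) hex ?_).symm
  by_contra hcon
  have h6 : jackS W r d Q n U zs = true := by
    unfold jackS
    rw [List.any_eq_true]
    refine ⟨z, hz, ?_⟩
    rw [List.any_eq_true]
    exact ⟨q, hq, by simpa using hcon⟩
  rw [hj] at h6
  exact Bool.noConfusion h6

theorem jackS_spec {n : List Unit} {U : ℕ} {zs : List (List Bool)}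
    (h : jackS W r d Q n U zs = true) : ∃ v < U, W n.length v = true := by
  unfold jackS at h
  rw [List.any_eq_true] at h
  obtain ⟨z, _, h⟩ := h
  rw [List.any_eq_true] at h
  obtain ⟨q, _, h⟩ := h
  obtain ⟨h1, h2⟩ := revB_spec h
  exact ⟨_, h1, h2⟩

theorem pivS_length (X : List (List Bool × List (List Unit × ℕ))) :
    (pivS X).length = (X.map fun x => x.2.length).sum + 1 := by
  unfold pivS
  rw [List.length_cons, List.length_flatMap]
  simp

theorem gS_length (T : List (Bool × ℕ)) (N : π) (n : List Unit) (zs : List (List Bool)) :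
    (gS W phi ℓ r d Q V T N n zs).length = (zs.map fun z => (Q z).length).sum + 1 := by
  unfold gS
  rw [List.length_map, pivS_length]
  unfold XG
  rw [List.map_map]
  congr 2
  refine List.map_congr_left fun z _ => ?_
  simp

/-- the number of candidates is polynomial in the size of the batch -/
theorem gS_bound (hQ : PTime O Q) : ∃ P : Polynomial ℕ, ∀ (T : List (Bool × ℕ)) (N : π)
    (n : List Unit) (zs : List (List Bool)),
    (gS W phi ℓ r d Q V T N n zs).length ≤ P.eval (sz zs) := by
  obtain ⟨P, hP⟩ := hQ.size_le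
  refine ⟨Polynomial.X * P + 1, fun T N n zs => ?_⟩
  rw [gS_length]
  have h1 : (zs.map fun z => (Q z).length).sum ≤ zs.length * P.eval (sz zs) := by
    have h2 := List.sum_le_card_nsmul (zs.map fun z => (Q z).length) (P.eval (sz zs)) (by
      intro a ha
      obtain ⟨z, hz, rfl⟩ := List.mem_map.mp ha
      exact ((length_le_sz _).trans (hP z)).trans (poly_mono P (sz_le_of_mem hz)))
    simpa using h2
  have h3 : zs.length * P.eval (sz zs) ≤ sz zs * P.eval (sz zs) :=
    Nat.mul_le_mul_right _ (length_le_sz _)
  simp only [Polynomial.eval_add, Polynomial.eval_mul, Polynomial.eval_X, Polynomial.eval_one]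
  omega

variable [ToD π] {α β γ δ : Type} [ToD α] [ToD β] [ToD γ] [ToD δ]

theorem PTime.XG (hver : Ver O W ℓ)
    (hphi : PTime O (fun p : π × List (Bool × ℕ) × List Bool => phi p.1 p.2.1 p.2.2))
    (hQ : PTime O Q) {T : γ → List (Bool × ℕ)} {N : γ → π} {n : γ → List Unit}
    {zs : γ → List (List Bool)} (hT : PTime O T) (hN : PTime O N) (hn : PTime O n)
    (hz : PTime O zs) :
    PTime O (fun x => CKP.XG W phi r d Q (T x) (N x) (n x) (zs x)) := by
  unfold CKP.XG
  refine PTime.map (f := fun x (z : List Bool) =>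
    (z, (Q z).map fun q => CKP.evS W phi r d (T x) (N x) (n x) q)) hz ?_
  refine PTime.id.snd.pair (PTime.map (f := fun (p : γ × List Bool) (q : List Bool) =>
    CKP.evS W phi r d (T p.1) (N p.1) (n p.1) q) (hQ.comp PTime.id.snd) ?_)
  exact PTime.evS hver hphi (hT.comp PTime.id.fst.fst) (hN.comp PTime.id.fst.fst)
    (hn.comp PTime.id.fst.fst) PTime.id.snd

theorem PTime.gS (hver : Ver O W ℓ)
    (hphi : PTime O (fun p : π × List (Bool × ℕ) × List Bool => phi p.1 p.2.1 p.2.2))
    (hQ : PTime O Q) (hV : PTime O (fun p : List Bool × List Bool => V p.1 p.2))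
    {T : γ → List (Bool × ℕ)} {N : γ → π} {n : γ → List Unit}
    {zs : γ → List (List Bool)} (hT : PTime O T) (hN : PTime O N) (hn : PTime O n)
    (hz : PTime O zs) :
    PTime O (fun x => CKP.gS W phi ℓ r d Q V (T x) (N x) (n x) (zs x)) := by
  unfold CKP.gS
  refine PTime.map (f := fun x (p : List (List Unit × ℕ)) =>
    CKP.vecS ℓ V (CKP.XG W phi r d Q (T x) (N x) (n x) (zs x)) p)
    (PTime.pivS (PTime.XG hver hphi hQ hT hN hn hz)) ?_
  exact PTime.vecS hver.hl hV (PTime.XG hver hphi hQ (hT.comp PTime.id.fst)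
    (hN.comp PTime.id.fst) (hn.comp PTime.id.fst) (hz.comp PTime.id.fst)) PTime.id.snd

theorem PTime.jackS (hver : Ver O W ℓ) (hQ : PTime O Q) {n : γ → List Unit} {U : γ → ℕ}
    {zs : γ → List (List Bool)} (hn : PTime O n) (hU : PTime O U) (hz : PTime O zs) :
    PTime O (fun x => CKP.jackS W r d Q (n x) (U x) (zs x)) := by
  unfold CKP.jackS
  refine PTime.any (f := fun x (z : List Bool) => (Q z).any
    fun q => CKP.revB W r d (n x) (U x) q) hz ?_
  refine PTime.any (f := fun (p : γ × List Bool) (q : List Bool) =>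
    CKP.revB W r d (n p.1) (U p.1) q) (hQ.comp PTime.id.snd) ?_
  exact PTime.revB hver (hn.comp PTime.id.fst.fst) (hU.comp PTime.id.fst.fst) PTime.id.snd

end Pool.Agent.CKP
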